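import Mathlib
import Pool.Agent.Helper68.RR.Trans

/-!
# Tame inertia and automorphisms of the base field

`M / K` is a Galois extension of number fields and `σ` an automorphism of `M` extending an
automorphism `δ` of `K`.
-/

set_option autoImplicit false
set_option linter.unusedSectionVars false

open NumberField Pool.Agent.Helper16.TR Pool.Agent.Helper68.RR

open scoped Pointwise

namespace Pool.Agent.Helper45.FM

section finite

/-- in a finite field, a ring automorphism is a power map -/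
lemma exists_pow_of_equiv {k : Type*} [Field k] [Finite k] (θ : k ≃+* k) :
    ∃ c : ℕ, 0 < c ∧ ∀ x, θ x = x ^ c := by
  classical
  have : Fintype k := Fintype.ofFinite k
  obtain ⟨ζ, hζ⟩ := IsCyclic.exists_generator (α := kˣ)
  obtain ⟨m, hm⟩ : ∃ m : ℕ, ζ ^ m = Units.map (θ : k →* k) ζ := by
    have h1 := hζ (Units.map (θ : k →* k) ζ)
    rw [← mem_powers_iff_mem_zpowers] at h1
    exact h1
  refine ⟨m + Fintype.card kˣ, Nat.add_pos_right _ Fintype.card_pos, fun x => ?_⟩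
  by_cases hx : x = 0
  · subst hx
    have : 0 < Fintype.card kˣ := Fintype.card_pos
    rw [map_zero, zero_pow (by omega)]
  · obtain ⟨j, hj⟩ : ∃ j : ℕ, ζ ^ j = Units.mk0 x hx := by
      have h1 := hζ (Units.mk0 x hx)
      rw [← mem_powers_iff_mem_zpowers] at h1
      exact h1
    have hxj : x = (ζ : k) ^ j := by
      rw [← Units.val_pow_eq_pow_val, hj, Units.val_mk0]
    have hθ : θ (ζ : k) = (ζ : k) ^ m := by
      have := congrArg Units.val hm
      rw [Units.val_pow_eq_pow_val] at this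
      exact this.symm
    have h2 : x ^ Fintype.card kˣ = 1 := by
      have := pow_card_eq_one (x := Units.mk0 x hx)
      have := congrArg Units.val this
      rwa [Units.val_pow_eq_pow_val, Units.val_mk0, Units.val_one] at this
    rw [pow_add, h2, mul_one, hxj, map_pow, hθ, ← pow_mul, ← pow_mul, mul_comm]

/-- two exponents which agree on a finite field -/
lemma modEq_of_pow_eq {k : Type*} [Field k] [Finite k] {a b : ℕ} (h : ∀ x : k, x ^ a = x ^ b) :
    a ≡ b [MOD Nat.card k - 1] := by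
  classical
  have : Fintype k := Fintype.ofFinite k
  obtain ⟨ζ, hζ⟩ := IsCyclic.exists_generator (α := kˣ)
  have h1 : orderOf ζ = Nat.card k - 1 := by
    rw [orderOf_eq_card_of_forall_mem_zpowers hζ, Nat.card_eq_fintype_card, Fintype.card_units,
      Nat.card_eq_fintype_card]
  rw [← h1, ← pow_eq_pow_iff_modEq]
  ext
  push_cast
  exact (h ζ)

end finite

variable {K M : Type} [Field K] [NumberField K] [Field M] [NumberField M] [Algebra K M]

section cj

variable {δ : K ≃+* K} {σ : M ≃ₐ[ℚ] M}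

/-- conjugation by `σ` -/
def cj (hσ : ∀ x : K, σ (algebraMap K M x) = algebraMap K M (δ x)) :
    (M ≃ₐ[K] M) →* (M ≃ₐ[K] M) where
  toFun g := AlgEquiv.ofRingEquiv
    (f := σ.toRingEquiv.symm.trans (g.toRingEquiv.trans σ.toRingEquiv)) (by
      intro x
      change σ (g (σ.symm (algebraMap K M x))) = algebraMap K M x
      have h1 : σ.symm (algebraMap K M x) = algebraMap K M (δ.symm x) := by
        rw [AlgEquiv.symm_apply_eq, hσ, RingEquiv.apply_symm_apply]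
      rw [h1, g.commutes, hσ, RingEquiv.apply_symm_apply])
  map_one' := by
    ext x
    change σ (σ.symm x) = x
    simp
  map_mul' := by
    intro g h
    ext x
    change σ (g (h (σ.symm x))) = σ (g (σ.symm (σ (h (σ.symm x)))))
    simp

variable (hσ : ∀ x : K, σ (algebraMap K M x) = algebraMap K M (δ x))

lemma cj_apply (g : M ≃ₐ[K] M) (x : M) : cj hσ g x = σ (g (σ.symm x)) := rfl

end cj

section residue

/-- a prime fixed by an automorphism: the action on the residue field is a power map -/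
lemma exists_res_pow (P : Ideal (𝓞 M)) [hP : P.IsMaximal] (τ : M ≃ₐ[ℚ] M) (hτ : τ • P = P) :
    ∃ c : ℕ, 0 < c ∧ ∀ x : 𝓞 M, τ • x - x ^ c ∈ P := by
  have hfin : Finite (𝓞 M ⧸ P) := P.finiteQuotientOfFreeOfNeBot (ne_bot P)
  let _ : Field (𝓞 M ⧸ P) := Ideal.Quotient.field P
  let θ : (𝓞 M ⧸ P) ≃+* (𝓞 M ⧸ P) := Ideal.quotientEquiv P P
    (MulSemiringAction.toRingEquiv (M ≃ₐ[ℚ] M) (𝓞 M) τ) (by
      conv_lhs => rw [← hτ]
      rfl)
  obtain ⟨c, hc0, hc⟩ := exists_pow_of_equiv θ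
  refine ⟨c, hc0, fun x => ?_⟩
  have h1 := hc (Ideal.Quotient.mk P x)
  have h2 : θ (Ideal.Quotient.mk P x) = Ideal.Quotient.mk P (τ • x) := rfl
  rw [h2, ← map_pow, Ideal.Quotient.eq] at h1
  exact h1

lemma smul_algebraMap {δ : K ≃+* K} {σ : M ≃ₐ[ℚ] M}
    (hσ : ∀ x : K, σ (algebraMap K M x) = algebraMap K M (δ x)) (x : 𝓞 K) :
    σ • algebraMap (𝓞 K) (𝓞 M) x = algebraMap (𝓞 K) (𝓞 M) (RingOfIntegers.mapRingEquiv δ x) := by
  apply RingOfIntegers.ext
  exact hσ (x : K)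

variable [IsGalois K M]

/-- The lift of the automorphism to the decomposition group. -/
theorem exists_decomp {p c : ℕ} [Fact p.Prime] {δ : K ≃+* K} {σ : M ≃ₐ[ℚ] M}
    (hσ : ∀ x : K, σ (algebraMap K M x) = algebraMap K M (δ x)) (P : Ideal (𝓞 M))
    [hP : P.IsMaximal]
    (hN : p ∣ Nat.card (𝓞 K ⧸ P.comap (algebraMap (𝓞 K) (𝓞 M))) - 1)
    (hc : ∀ x : 𝓞 K, RingOfIntegers.mapRingEquiv δ x - x ^ c ∈
      P.comap (algebraMap (𝓞 K) (𝓞 M))) :
    ∃ g : M ≃ₐ[K] M, ∃ c' : ℕ, (c' : ZMod p) = c ∧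
      (AlgEquiv.restrictScalarsHom ℚ g * σ) • P = P ∧
      ∀ x : 𝓞 M, (AlgEquiv.restrictScalarsHom ℚ g * σ) • x - x ^ c' ∈ P := by
  set Q := P.comap (algebraMap (𝓞 K) (𝓞 M)) with hQ
  have hQm : Q.IsMaximal := inferInstance
  -- `σ P` lies above `Q`
  have h1 : (σ • P).comap (algebraMap (𝓞 K) (𝓞 M)) = Q := by
    ext x
    rw [Ideal.mem_comap, Ideal.mem_pointwise_smul_iff_inv_smul_mem]
    obtain ⟨y, rfl⟩ : ∃ y, RingOfIntegers.mapRingEquiv δ y = x :=
      (RingOfIntegers.mapRingEquiv δ).surjective x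
    have h2 : σ⁻¹ • algebraMap (𝓞 K) (𝓞 M) (RingOfIntegers.mapRingEquiv δ y) =
        algebraMap (𝓞 K) (𝓞 M) y := by
      rw [inv_smul_eq_iff, smul_algebraMap hσ]
    rw [h2, ← Ideal.mem_comap, ← hQ]
    constructor
    · intro hy
      have hc0 : c ≠ 0 := by
        rintro rfl
        have := hc 0
        rw [map_zero, pow_zero, zero_sub] at this
        exact hQm.ne_top ((Ideal.eq_top_iff_one _).2 (by simpa using this))
      have := add_mem (hc y) (Ideal.pow_mem_of_mem _ hy c (Nat.pos_of_ne_zero hc0))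
      rwa [sub_add_cancel] at this
    · intro hy
      have := sub_mem hy (hc y)
      rw [sub_sub_cancel] at this
      exact hQm.isPrime.mem_of_pow_mem _ this
  have hσP : (σ • P).IsPrime := Ideal.IsPrime.smul σ
  obtain ⟨g, hg⟩ := transitive (K := K) (Ω := M) (σ • P) P h1
  have hg' : AlgEquiv.restrictScalarsHom ℚ g • (σ • P) = P := hg.symm
  rw [← mul_smul] at hg'
  obtain ⟨c', hc0', hc'⟩ := exists_res_pow P _ hg'
  refine ⟨g, c', ?_, hg', hc'⟩
  have hfin : Finite (𝓞 K ⧸ Q) := Q.finiteQuotientOfFreeOfNeBot (comap_ne_bot K M P)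
  let _ : Field (𝓞 K ⧸ Q) := Ideal.Quotient.field Q
  have h3 : c' ≡ c [MOD Nat.card (𝓞 K ⧸ Q) - 1] := by
    apply modEq_of_pow_eq
    intro x
    obtain ⟨x, rfl⟩ := Ideal.Quotient.mk_surjective x
    rw [← map_pow, ← map_pow, Ideal.Quotient.eq]
    have e1 := hc' (algebraMap (𝓞 K) (𝓞 M) x)
    have e2 : (AlgEquiv.restrictScalarsHom ℚ g * σ) • algebraMap (𝓞 K) (𝓞 M) x =
        algebraMap (𝓞 K) (𝓞 M) (RingOfIntegers.mapRingEquiv δ x) := by
      rw [mul_smul, smul_algebraMap hσ]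
      apply RingOfIntegers.ext
      exact g.commutes _
    rw [e2, ← map_pow, ← map_sub, ← Ideal.mem_comap, ← hQ] at e1
    have e3 := sub_mem (hc x) e1
    convert e3 using 1
    ring
  have h4 : c' ≡ c [MOD p] := h3.of_dvd hN
  exact (ZMod.natCast_eq_natCast_iff _ _ _).2 h4

end residue

section inertia

variable [IsGalois K M]

/-- conjugation of a tame inertia group by an automorphism in the decomposition group -/
theorem cj_inertia {δ : K ≃+* K} {σ : M ≃ₐ[ℚ] M}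
    (hσ : ∀ x : K, σ (algebraMap K M x) = algebraMap K M (δ x)) (P : Ideal (𝓞 M))
    [hP : P.IsMaximal] (hI : (Nat.card (P.inertia (M ≃ₐ[K] M)) : 𝓞 M) ∉ P) {g : M ≃ₐ[K] M}
    {c : ℕ} (hg : (AlgEquiv.restrictScalarsHom ℚ g * σ) • P = P)
    (hc : ∀ x : 𝓞 M, (AlgEquiv.restrictScalarsHom ℚ g * σ) • x - x ^ c ∈ P)
    {τ : M ≃ₐ[K] M} (hτ : τ ∈ P.inertia (M ≃ₐ[K] M)) : g * cj hσ τ * g⁻¹ = τ ^ c := by
  obtain ⟨a, ha⟩ := exists_acts hτ
  have hτP : τ • P = P := Ideal.inertia_le_stabilizer P hτ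
  set φ : M ≃ₐ[ℚ] M := AlgEquiv.restrictScalarsHom ℚ g * σ with hφ
  -- the action of the conjugate
  have hsm : ∀ x : 𝓞 M, (g * cj hσ τ * g⁻¹) • x =
      (φ * AlgEquiv.restrictScalarsHom ℚ τ * φ⁻¹) • x := by
    intro x
    apply RingOfIntegers.ext
    change g (σ (τ (σ.symm (g.symm (x : M))))) = g (σ (τ (φ.symm (x : M))))
    congr 3
  have ha' : Acts P (AlgEquiv.restrictScalarsHom ℚ τ : M ≃ₐ[ℚ] M) a := ha
  have h1 : Acts P (φ * AlgEquiv.restrictScalarsHom ℚ τ * φ⁻¹) (a ^ c) := Acts.conj hg hc ha'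
  have h2 : Acts P (g * cj hσ τ * g⁻¹) (a ^ c) := by
    intro x hx
    rw [hsm]
    exact h1 x hx
  refine eq_of_acts hI ?_ (pow_mem hτ c) h2 (Acts.pow hτP ha c)
  intro x
  have h3 : τ • (φ⁻¹ • x) - φ⁻¹ • x ∈ P := hτ (φ⁻¹ • x)
  have h4 := smul_mem_self hg h3
  rw [smul_sub, smul_inv_smul] at h4
  have h5 : (g * cj hσ τ * g⁻¹) • x = φ • (τ • (φ⁻¹ • x)) := by
    rw [hsm, mul_smul, mul_smul]
    rfl
  change (g * cj hσ τ * g⁻¹) • x - x ∈ P
  rw [h5]
  exact h4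

/-- The Frobenius relation kills inertia at primes whose norm is not `1` modulo `p`. -/
theorem inertia_trivial {p : ℕ} [hp : Fact p.Prime] (hPG : IsPGroup p (M ≃ₐ[K] M))
    (P : Ideal (𝓞 M)) [hP : P.IsMaximal] (hI : (Nat.card (P.inertia (M ≃ₐ[K] M)) : 𝓞 M) ∉ P)
    (hN : ¬ p ∣ Nat.card (𝓞 K ⧸ P.comap (algebraMap (𝓞 K) (𝓞 M))) - 1)
    {τ : M ≃ₐ[K] M} (hτ : τ ∈ P.inertia (M ≃ₐ[K] M)) : τ = 1 := by
  obtain ⟨φ, hφ⟩ := exists_frob K M P hI
  set N := Nat.card (𝓞 K ⧸ P.comap (algebraMap (𝓞 K) (𝓞 M))) with hNdef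
  have hfin : Finite (𝓞 K ⧸ P.comap (algebraMap (𝓞 K) (𝓞 M))) :=
    Ideal.finiteQuotientOfFreeOfNeBot _ (comap_ne_bot K M P)
  have hN0 : 0 < N := Nat.card_pos
  have h1 : ∀ k : ℕ, φ ^ k * τ * (φ ^ k)⁻¹ = τ ^ N ^ k := by
    intro k
    induction k with
    | zero => simp
    | succ k ih =>
      have e : φ ^ (k + 1) * τ * (φ ^ (k + 1))⁻¹ = φ * (φ ^ k * τ * (φ ^ k)⁻¹) * φ⁻¹ := by
        rw [pow_succ']; group
      rw [e, ih, ← conj_pow, hφ τ hτ, ← pow_mul, pow_succ, mul_comm]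
  obtain ⟨b, hb⟩ := hPG φ
  have h2 := h1 (p ^ b)
  rw [hb] at h2
  have h3 : τ ^ (N ^ p ^ b) = τ := by
    rw [← h2]; group
  obtain ⟨a, ha⟩ := hPG τ
  have h4 : τ ^ (N ^ p ^ b - 1) = 1 := by
    have h5 : τ ^ (N ^ p ^ b - 1) * τ = 1 * τ := by
      rw [← pow_succ, Nat.sub_add_cancel (Nat.pow_pos hN0), h3, one_mul]
    exact mul_right_cancel h5
  have h6 : ¬ p ∣ N ^ p ^ b - 1 := by
    intro h7
    apply hN
    have h8 : ((N ^ p ^ b : ℕ) : ZMod p) = 1 := by
      have := (ZMod.natCast_eq_zero_iff (N ^ p ^ b - 1) p).2 h7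
      rw [Nat.cast_sub (Nat.pow_pos hN0), Nat.cast_one, sub_eq_zero] at this
      exact this
    rw [Nat.cast_pow, ZMod.pow_card_pow] at h8
    rw [← ZMod.natCast_eq_zero_iff, Nat.cast_sub hN0, h8, Nat.cast_one, sub_self]
  rw [← orderOf_eq_one_iff]
  refine Nat.eq_one_of_dvd_coprimes (a := p ^ a) (b := N ^ p ^ b - 1) ?_
    (orderOf_dvd_of_pow_eq_one ha) (orderOf_dvd_of_pow_eq_one h4)
  exact Nat.Coprime.pow_left _ ((Nat.Prime.coprime_iff_not_dvd hp.out).2 h6)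

/-- The Frobenius relation bounds the order of inertia in the abelianization. -/
theorem inertia_pow {p V : ℕ} [hp : Fact p.Prime] (hPG : IsPGroup p (M ≃ₐ[K] M))
    (P : Ideal (𝓞 M)) [hP : P.IsMaximal] (hI : (Nat.card (P.inertia (M ≃ₐ[K] M)) : 𝓞 M) ∉ P)
    (hN : ¬ p ^ (V + 1) ∣ Nat.card (𝓞 K ⧸ P.comap (algebraMap (𝓞 K) (𝓞 M))) - 1)
    {τ : M ≃ₐ[K] M} (hτ : τ ∈ P.inertia (M ≃ₐ[K] M)) :
    Abelianization.of τ ^ p ^ V = 1 := by
  obtain ⟨φ, hφ⟩ := exists_frob K M P hI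
  set N := Nat.card (𝓞 K ⧸ P.comap (algebraMap (𝓞 K) (𝓞 M))) with hNdef
  have hfin : Finite (𝓞 K ⧸ P.comap (algebraMap (𝓞 K) (𝓞 M))) :=
    Ideal.finiteQuotientOfFreeOfNeBot _ (comap_ne_bot K M P)
  have hN0 : 0 < N := Nat.card_pos
  have h1 : Abelianization.of τ ^ N = Abelianization.of τ := by
    have := congrArg (Abelianization.of : (M ≃ₐ[K] M) →* _) (hφ τ hτ)
    rw [map_mul, map_mul, map_inv, map_pow, mul_comm (Abelianization.of φ), mul_assoc,
      mul_inv_cancel, mul_one] at this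
    exact this.symm
  have h2 : Abelianization.of τ ^ (N - 1) = 1 := by
    have h5 : Abelianization.of τ ^ (N - 1) * Abelianization.of τ = 1 * Abelianization.of τ := by
      rw [← pow_succ, Nat.sub_add_cancel hN0, h1, one_mul]
    exact mul_right_cancel h5
  obtain ⟨a, ha⟩ := hPG τ
  have h3 : Abelianization.of τ ^ p ^ a = 1 := by rw [← map_pow, ha, map_one]
  have h4 := orderOf_dvd_of_pow_eq_one h2
  obtain ⟨j, -, hj⟩ := (Nat.dvd_prime_pow hp.out).1 (orderOf_dvd_of_pow_eq_one h3)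
  have h5 : j ≤ V := by
    by_contra hcon
    apply hN
    rw [hj] at h4
    exact (pow_dvd_pow p (by omega)).trans h4
  rw [← orderOf_dvd_iff_pow_eq_one, hj]
  exact pow_dvd_pow p h5

end inertia

end Pool.Agent.Helper45.FM
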