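import Pool.Agent.Helper45.FM.Lcs

/-!
# Powers of a nearly scalar endomorphism of a finite abelian `p`-group
-/

set_option autoImplicit false
set_option linter.unusedSectionVars false

namespace Pool.Agent.Helper45.FM

section additive

variable {B : Type*} [AddCommGroup B]

lemma mul_app (f g : AddMonoid.End B) (x : B) : (f * g) x = f (g x) := rfl

lemma add_app (f g : AddMonoid.End B) (x : B) : (f + g) x = f x + g x := rfl

lemma sub_app (f g : AddMonoid.End B) (x : B) : (f - g) x = f x - g x := rfl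

/-- `f` maps `B` into `n B` -/
def MapsInto (f : AddMonoid.End B) (n : ℕ) : Prop := ∀ x, ∃ y, f x = n • y

lemma mapsInto_mul_left {f : AddMonoid.End B} {n : ℕ} (h : MapsInto f n) (g : AddMonoid.End B) :
    MapsInto (g * f) n := by
  intro x
  obtain ⟨y, hy⟩ := h x
  exact ⟨g y, by rw [mul_app, hy, map_nsmul]⟩

lemma mapsInto_mul_right {f : AddMonoid.End B} {n : ℕ} (h : MapsInto f n) (g : AddMonoid.End B) :
    MapsInto (f * g) n := fun x => h (g x)

lemma mapsInto_mul {f g : AddMonoid.End B} {m n : ℕ} (hf : MapsInto f m) (hg : MapsInto g n) :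
    MapsInto (f * g) (m * n) := by
  intro x
  obtain ⟨y, hy⟩ := hg x
  obtain ⟨z, hz⟩ := hf y
  exact ⟨z, by rw [mul_app, hy, map_nsmul, hz, ← mul_nsmul]⟩

lemma mapsInto_natCast (n : ℕ) : MapsInto ((n : ℕ) : AddMonoid.End B) n := fun x =>
  ⟨x, by rw [AddMonoid.End.natCast_apply]⟩

lemma mapsInto_add {f g : AddMonoid.End B} {n : ℕ} (hf : MapsInto f n) (hg : MapsInto g n) :
    MapsInto (f + g) n := by
  intro x
  obtain ⟨y, hy⟩ := hf x
  obtain ⟨z, hz⟩ := hg x
  exact ⟨y + z, by rw [add_app, hy, hz, nsmul_add]⟩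

lemma MapsInto.of_dvd {f : AddMonoid.End B} {m n : ℕ} (h : MapsInto f n) (hd : m ∣ n) :
    MapsInto f m := by
  obtain ⟨k, rfl⟩ := hd
  intro x
  obtain ⟨y, hy⟩ := h x
  exact ⟨k • y, by rw [hy, mul_nsmul']⟩

lemma mapsInto_pow_sub {p : ℕ} (hp : p.Prime) {f : AddMonoid.End B} {b k : ℕ}
    (h1 : MapsInto (f - (b : AddMonoid.End B)) (p ^ k))
    (h2 : MapsInto ((f - (b : AddMonoid.End B)) ^ 2) (p ^ (k + 1))) :
    MapsInto (f ^ p - ((b ^ p : ℕ) : AddMonoid.End B)) (p ^ (k + 1)) := by
  set e := f - (b : AddMonoid.End B) with he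
  have hf : f = (b : AddMonoid.End B) + e := by rw [he]; abel
  have hc : Commute (b : AddMonoid.End B) e := Nat.cast_commute b e
  have h3 := hc.add_pow_prime_eq hp
  rw [← hf] at h3
  have h4 : f ^ p - ((b ^ p : ℕ) : AddMonoid.End B) = e ^ (p - 2) * e ^ 2 +
      (p : AddMonoid.End B) * ((b : AddMonoid.End B) * (e *
        ∑ k ∈ Finset.Ioo 0 p, (b : AddMonoid.End B) ^ (k - 1) * e ^ (p - k - 1) *
          ((p.choose k / p : ℕ) : AddMonoid.End B))) := by
    rw [h3, ← pow_add, Nat.sub_add_cancel hp.two_le, Nat.cast_pow, mul_assoc, mul_assoc]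
    simp only [mul_assoc]
    abel
  rw [h4]
  refine mapsInto_add (mapsInto_mul_left h2 _) ?_
  rw [pow_succ' p k]
  exact mapsInto_mul (mapsInto_natCast p) (mapsInto_mul_left (mapsInto_mul_right h1 _) _)

lemma mapsInto_pow_pow_sub {p : ℕ} (hp : p.Prime) {f : AddMonoid.End B} {t : ℕ}
    (h2 : MapsInto ((f - (t : AddMonoid.End B)) ^ 2) p) (k : ℕ) :
    MapsInto (f ^ p ^ k - ((t ^ p ^ k : ℕ) : AddMonoid.End B)) (p ^ k) := by
  induction k with
  | zero => exact fun x => ⟨(f ^ p ^ 0 - ((t ^ p ^ 0 : ℕ) : AddMonoid.End B)) x, by simp⟩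
  | succ k ih =>
    have h3 : MapsInto ((f ^ p ^ k - ((t ^ p ^ k : ℕ) : AddMonoid.End B)) ^ 2) (p ^ (k + 1)) := by
      rcases Nat.eq_zero_or_pos k with rfl | hk
      · simpa using h2
      · have h4 := mapsInto_mul ih ih
        rw [← pow_two] at h4
        refine h4.of_dvd ?_
        rw [← pow_add]
        exact pow_dvd_pow p (by omega)
    have h5 := mapsInto_pow_sub hp ih h3
    rwa [← pow_mul, ← pow_mul, ← pow_succ] at h5

/-- **Lemma A4**. -/
theorem pow_eq_of_sq {p : ℕ} (hp : p.Prime) {f : AddMonoid.End B} {t U : ℕ}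
    (h2 : MapsInto ((f - (t : AddMonoid.End B)) ^ 2) p) (hU : ∀ x : B, p ^ U • x = 0) (x : B) :
    (f ^ p ^ U) x = (t ^ p ^ U) • x := by
  obtain ⟨y, hy⟩ := mapsInto_pow_pow_sub hp h2 U x
  rw [hU, sub_app, sub_eq_zero, AddMonoid.End.natCast_apply] at hy
  exact hy

end additive

section group

variable {P : Type*} [Group P]

/-- the endomorphism of the abelianization, in additive notation -/
def abEnd (α : P →* P) : AddMonoid.End (Additive (Abelianization P)) :=
  MonoidHom.toAdditive (Abelianization.map α)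

lemma abEnd_of (α : P →* P) (x : P) : abEnd α (Additive.ofMul (Abelianization.of x)) =
    Additive.ofMul (Abelianization.of (α x)) := by
  change Additive.ofMul (Abelianization.map α (Abelianization.of x)) = _
  rw [Abelianization.map_of]

/-- iterates of an endomorphism -/
lemma map_pow_apply (α : Monoid.End P) (n : ℕ) (x : P) :
    Additive.ofMul (Abelianization.of ((α ^ n) x)) =
      (abEnd α ^ n) (Additive.ofMul (Abelianization.of x)) := by
  induction n with
  | zero => simp
  | succ n ih =>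
    rw [pow_succ', pow_succ', mul_app, ← ih]
    exact (abEnd_of α ((α ^ n) x)).symm

lemma mem_lcs_one (x : P) : x ∈ lcs P 1 ↔ Abelianization.of x = 1 := by
  rw [← MonoidHom.mem_ker, Abelianization.ker_of]
  rfl

/-- **Lemma A4** for groups. -/
theorem exists_scalar {p : ℕ} (hp : p.Prime) (α : Monoid.End P) {t U : ℕ}
    (h2 : MapsInto ((abEnd α - (t : AddMonoid.End (Additive (Abelianization P)))) ^ 2) p)
    (hU : ∀ x : P, x ^ p ^ U ∈ lcs P 1) (x : P) :
    (α ^ p ^ U) x * (x ^ t ^ p ^ U)⁻¹ ∈ lcs P 1 := by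
  have h4 : ∀ b : Additive (Abelianization P), p ^ U • b = 0 := by
    intro b
    obtain ⟨y, hy⟩ := QuotientGroup.mk_surjective (Additive.toMul b)
    have h5 := (mem_lcs_one _).1 (hU y)
    rw [map_pow] at h5
    have h6 : Additive.toMul b = Abelianization.of y := hy.symm
    have h7 : Additive.toMul (p ^ U • b) = 1 := by
      rw [toMul_nsmul, h6, h5]
    exact h7
  have h8 := pow_eq_of_sq hp h2 h4 (Additive.ofMul (Abelianization.of x))
  rw [← map_pow_apply, ← ofMul_pow] at h8
  have h9 : Abelianization.of ((α ^ p ^ U) x) = Abelianization.of x ^ t ^ p ^ U :=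
    Additive.ofMul.injective h8
  rw [mem_lcs_one, map_mul, map_inv, map_pow, h9, mul_inv_cancel]

end group

end Pool.Agent.Helper45.FM
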