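import Mathlib
import Pool.Agent.Helper45.FM.Loc
import Pool.Agent.Helper45.FM.Scal

/-!
# Galois groups of tame `p`-extensions: the abelianization

`M / K` is a finite Galois `p`-extension of number fields, `σ` an automorphism of `M` extending the
automorphism `δ` of `K`.
-/

set_option autoImplicit false
set_option linter.unusedSectionVars false

open NumberField Pool.Agent.Helper16.TR Pool.Agent.Helper68.RR

open scoped Pointwise commutatorElement

namespace Pool.Agent.Helper45.FM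

/-- `F / K` is unramified at all maximal ideals. -/
def Unram (K F : Type) [Field K] [NumberField K] [Field F] [NumberField F] [Algebra K F] : Prop :=
  ∀ P : Ideal (𝓞 F), P.IsMaximal →
    ¬ (P.comap (algebraMap (𝓞 K) (𝓞 F))).map (algebraMap (𝓞 K) (𝓞 F)) ≤ P ^ 2

/-- The cyclic unramified extensions of `p`-power degree of `K` have degree at most `p ^ W`. -/
def ClassBound (K : Type) [Field K] [NumberField K] (p W : ℕ) : Prop :=
  ∀ (F : Type) [Field F] [NumberField F] [Algebra K F] [IsGalois K F], Unram K F →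
    IsCyclic (F ≃ₐ[K] F) → ∀ j : ℕ, Nat.card (F ≃ₐ[K] F) = p ^ j → j ≤ W

/-- The automorphism `δ` of `K` extends to all cyclic unramified extensions of degree `p`, and acts
on their Galois groups as the `t`-th power map. -/
def ClassScalar (K : Type) [Field K] [NumberField K] (p t : ℕ) (δ : K ≃+* K) : Prop :=
  ∀ (F : Type) [Field F] [NumberField F] [Algebra K F] [IsGalois K F], Unram K F →
    Nat.card (F ≃ₐ[K] F) = p → ∃ σ : F ≃+* F, (∀ x : K, σ (algebraMap K F x) =
      algebraMap K F (δ x)) ∧ ∀ (g : F ≃ₐ[K] F) (x : F), σ (g x) = (g ^ t) (σ x)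

/-- The automorphism `δ` acts on the residue fields of the primes in `S` as a power map with
exponent congruent to `t` modulo `p`, if their norm is congruent to `1` modulo `p`; then their norm
is not congruent to `1` modulo `p ^ (V + 1)`. -/
def RayScalar (K : Type) [Field K] [NumberField K] (S : Set (Ideal (𝓞 K))) (p V t : ℕ)
    (δ : K ≃+* K) : Prop :=
  ∀ Q ∈ S, Q.IsMaximal → p ∣ Nat.card (𝓞 K ⧸ Q) - 1 → ¬ p ^ (V + 1) ∣ Nat.card (𝓞 K ⧸ Q) - 1 ∧
    ∃ c : ℕ, (c : ZMod p) = t ∧ ∀ x : 𝓞 K, RingOfIntegers.mapRingEquiv δ x - x ^ c ∈ Q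

variable {K M : Type} [Field K] [NumberField K] [Field M] [NumberField M] [Algebra K M]
  [IsGalois K M]

/-- the unramified cyclic extension cut out by a character which is trivial on inertia -/
theorem exists_unram (χ : (M ≃ₐ[K] M) →* ℂˣ) (hχ : ∀ P : Ideal (𝓞 M), P.IsMaximal →
    ∀ g ∈ P.inertia (M ≃ₐ[K] M), χ g = 1) :
    ∃ F : IntermediateField K M, ∃ _ : NumberField F, ∃ _ : IsGalois K F, Unram K F ∧
      IsCyclic (F ≃ₐ[K] F) ∧ ∀ g : M ≃ₐ[K] M, AlgEquiv.restrictNormalHom F g = 1 ↔ χ g = 1 := by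
  set F : IntermediateField K M := IntermediateField.fixedField χ.ker with hF
  have hfix : F.fixingSubgroup = χ.ker := IntermediateField.fixingSubgroup_fixedField _
  have h1 : NumberField F := NumberField.of_module_finite K F
  have h2 : IsGalois K F := by
    rw [← InfiniteGalois.normal_iff_isGalois, hfix]
    infer_instance
  have h3 : ∀ g : M ≃ₐ[K] M, AlgEquiv.restrictNormalHom F g = 1 ↔ χ g = 1 := by
    intro g
    rw [← MonoidHom.mem_ker, IntermediateField.restrictNormalHom_ker, hfix, MonoidHom.mem_ker]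
  refine ⟨F, h1, h2, ?_, ?_, h3⟩
  · intro 𝔭 h𝔭
    obtain ⟨P, hP, hP'⟩ := exists_prime_above (K := F) (Ω := M) 𝔭
    have h4 := ramIdx_eq_one K F M P (by
      intro g hg x
      have h5 := hχ P hP g hg
      rw [← MonoidHom.mem_ker, ← hfix] at h5
      exact h5 x)
    rw [hP'] at h4
    obtain ⟨-, h6⟩ := exists_ramIdx K F 𝔭 rfl
    rw [h4] at h6
    exact h6
  · have hs : Function.Surjective (AlgEquiv.restrictNormalHom F : (M ≃ₐ[K] M) →* (F ≃ₐ[K] F)) :=
      AlgEquiv.restrictNormalHom_surjective M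
    let f : (F ≃ₐ[K] F) →* ℂˣ := MonoidHom.liftOfSurjective (AlgEquiv.restrictNormalHom F) hs
      ⟨χ, fun g hg => (h3 g).1 hg⟩
    have hf : ∀ g : M ≃ₐ[K] M, f (AlgEquiv.restrictNormalHom F g) = χ g := by
      intro g
      exact MonoidHom.liftOfRightInverse_comp_apply _ _ _ _ g
    refine isCyclic_of_injective_ringHom ((Units.coeHom ℂ).comp f) ?_
    intro a b hab
    obtain ⟨a, rfl⟩ := hs a
    obtain ⟨b, rfl⟩ := hs b
    have h7 : f (AlgEquiv.restrictNormalHom F a) = f (AlgEquiv.restrictNormalHom F b) :=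
      Units.ext hab
    rw [hf, hf] at h7
    have h8 : χ (a * b⁻¹) = 1 := by rw [map_mul, map_inv, h7, mul_inv_cancel]
    rw [← h3, map_mul, map_inv, mul_inv_eq_one] at h8
    exact h8

/-- a character which separates an element from a subgroup containing the commutators -/
lemma exists_char {G : Type} [Group G] [Finite G] (N : Subgroup G) (hN : commutator G ≤ N) {x : G}
    (hx : x ∉ N) : ∃ χ : G →* ℂˣ, χ x ≠ 1 ∧ ∀ g ∈ N, χ g = 1 := by
  have : N.Normal := Subgroup.Normal.of_commutator_le G hN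
  let _ : CommGroup (G ⧸ N) :=
    { (inferInstance : Group (G ⧸ N)) with
      mul_comm := by
        intro a b
        obtain ⟨a, rfl⟩ := QuotientGroup.mk_surjective a
        obtain ⟨b, rfl⟩ := QuotientGroup.mk_surjective b
        rw [← QuotientGroup.mk_mul, ← QuotientGroup.mk_mul, QuotientGroup.eq]
        apply hN
        have : (a * b)⁻¹ * (b * a) = ⁅b⁻¹, a⁻¹⁆ := by
          rw [commutatorElement_def]; group
        rw [this]
        exact Subgroup.commutator_mem_commutator (Subgroup.mem_top _) (Subgroup.mem_top _) }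
  have hx' : (x : G ⧸ N) ≠ 1 := by rwa [Ne, QuotientGroup.eq_one_iff]
  obtain ⟨χ, hχ⟩ := CommGroup.exists_apply_ne_one_of_hasEnoughRootsOfUnity (G ⧸ N) ℂ hx'
  refine ⟨χ.comp (QuotientGroup.mk' N), hχ, fun g hg => ?_⟩
  have : (QuotientGroup.mk' N) g = 1 := by
    rw [QuotientGroup.mk'_apply, QuotientGroup.eq_one_iff]; exact hg
  rw [MonoidHom.comp_apply, this, map_one]

section frob

variable {δ : K ≃+* K} {σ : M ≃ₐ[ℚ] M}
  (hσ : ∀ x : K, σ (algebraMap K M x) = algebraMap K M (δ x))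

/-- comparison of two extensions of the automorphism -/
theorem res_cj (F : IntermediateField K M) [IsGalois K F] (hc : IsCyclic (F ≃ₐ[K] F)) {t : ℕ}
    {s : F ≃+* F} (hs : ∀ x : K, s (algebraMap K F x) = algebraMap K F (δ x))
    (hg : ∀ (g : F ≃ₐ[K] F) (x : F), s (g x) = (g ^ t) (s x)) (g : M ≃ₐ[K] M) :
    AlgEquiv.restrictNormalHom F (cj hσ g) = AlgEquiv.restrictNormalHom F g ^ t := by
  -- `f = σ ∘ s⁻¹`
  let f : F →ₐ[K] M :=
    { toFun := fun x => σ (s.symm x : M)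
      map_one' := by rw [map_one]; exact map_one σ
      map_mul' := by
        intro x y
        rw [map_mul]; exact map_mul σ _ _
      map_zero' := by rw [map_zero]; exact map_zero σ
      map_add' := by
        intro x y
        rw [map_add]; exact map_add σ _ _
      commutes' := by
        intro x
        have h1 : s.symm (algebraMap K F x) = algebraMap K F (δ.symm x) := by
          rw [RingEquiv.symm_apply_eq, hs, RingEquiv.apply_symm_apply]
        change σ ((s.symm (algebraMap K F x) : F) : M) = _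
        rw [h1]
        change σ (algebraMap K M (δ.symm x)) = _
        rw [hσ, RingEquiv.apply_symm_apply] }
  let h : F ≃ₐ[K] F := f.restrictNormal' F
  have hh : ∀ x : F, ((h x : F) : M) = σ (s.symm x : M) := by
    intro x
    exact f.restrictNormal_commutes F x
  have hh' : ∀ x : F, σ (x : M) = ((h (s x) : F) : M) := by
    intro x
    rw [hh, RingEquiv.symm_apply_apply]
  have hcoe : ∀ (g : M ≃ₐ[K] M) (x : F), ((AlgEquiv.restrictNormalHom F g x : F) : M) = g x := by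
    intro g x
    exact AlgEquiv.restrictNormal_commutes g F x
  set r := AlgEquiv.restrictNormalHom F g with hr
  have hcomm : h * r ^ t = r ^ t * h := by
    let _ : CommGroup (F ≃ₐ[K] F) := IsCyclic.commGroup
    exact mul_comm _ _
  ext y
  obtain ⟨w, rfl⟩ : ∃ w, h (s w) = y := ⟨s.symm (h.symm y), by simp⟩
  rw [hcoe]
  have h1 : cj hσ g ((h (s w) : F) : M) = σ (g (w : M)) := by
    rw [cj_apply, ← hh', AlgEquiv.symm_apply_apply]
  rw [h1, ← hcoe g w, ← hr, hh', hg]
  have h2 := congrArg (fun e : F ≃ₐ[K] F => ((e (s w) : F) : M)) hcomm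
  exact h2

end frob

section gen

variable (K M) in
/-- the subgroup generated by all inertia groups and the commutators -/
def IC : Subgroup (M ≃ₐ[K] M) :=
  Subgroup.closure {g | ∃ P : Ideal (𝓞 M), P.IsMaximal ∧ g ∈ P.inertia (M ≃ₐ[K] M)} ⊔
    commutator (M ≃ₐ[K] M)

variable (K M) in
/-- the subgroup generated by all inertia groups, the commutators and the `p`-th powers -/
def ICp (p : ℕ) : Subgroup (M ≃ₐ[K] M) := IC K M ⊔ Subgroup.closure {g | ∃ x, x ^ p = g}

lemma inertia_mem_IC {P : Ideal (𝓞 M)} (hP : P.IsMaximal) {g : M ≃ₐ[K] M}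
    (hg : g ∈ P.inertia (M ≃ₐ[K] M)) : g ∈ IC K M :=
  Subgroup.mem_sup_left (Subgroup.subset_closure ⟨P, hP, hg⟩)

lemma IC_le {N : Subgroup (M ≃ₐ[K] M)} (h1 : ∀ P : Ideal (𝓞 M), P.IsMaximal →
    ∀ g ∈ P.inertia (M ≃ₐ[K] M), g ∈ N) (h2 : commutator (M ≃ₐ[K] M) ≤ N) : IC K M ≤ N := by
  refine sup_le ((Subgroup.closure_le _).2 ?_) h2
  rintro g ⟨P, hP, hg⟩
  exact h1 P hP g hg

variable {p : ℕ} [hp : Fact p.Prime]

/-- modulo inertia and commutators, the exponent divides `p ^ W` -/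
theorem pow_mem_IC (hPG : IsPGroup p (M ≃ₐ[K] M)) {W : ℕ} (hW : ClassBound K p W)
    (x : M ≃ₐ[K] M) : x ^ p ^ W ∈ IC K M := by
  by_contra hx
  obtain ⟨χ, h1, h2⟩ := exists_char (IC K M) le_sup_right hx
  obtain ⟨F, i1, i2, hu, hc, hF⟩ := exists_unram χ
    (fun P hP g hg => h2 g (inertia_mem_IC hP hg))
  have hFp : IsPGroup p (F ≃ₐ[K] F) := hPG.of_surjective (AlgEquiv.restrictNormalHom F)
    (AlgEquiv.restrictNormalHom_surjective M)
  obtain ⟨j, hj⟩ := IsPGroup.iff_card.1 hFp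
  have h3 := hW F hu hc j hj
  apply h1
  rw [← hF, map_pow]
  have h4 : (AlgEquiv.restrictNormalHom F x : F ≃ₐ[K] F) ^ p ^ j = 1 := by
    rw [← hj]; exact pow_card_eq_one'
  exact pow_eq_one_of_dvd' (pow_dvd_pow p h3) h4
where
  pow_eq_one_of_dvd' {G : Type} [Group G] {x : G} {m n : ℕ} (h : m ∣ n) (hm : x ^ m = 1) :
      x ^ n = 1 := by
    obtain ⟨k, rfl⟩ := h
    rw [pow_mul, hm, one_pow]

variable {δ : K ≃+* K} {σ : M ≃ₐ[ℚ] M}
  (hσ : ∀ x : K, σ (algebraMap K M x) = algebraMap K M (δ x))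

/-- modulo inertia, commutators and `p`-th powers, the automorphism acts as a scalar -/
theorem cj_mem_ICp {t : ℕ} (h : ClassScalar K p t δ) (x : M ≃ₐ[K] M) :
    cj hσ x * (x ^ t)⁻¹ ∈ ICp K M p := by
  by_contra hx
  obtain ⟨χ, h1, h2⟩ := exists_char (ICp K M p) (le_sup_right.trans le_sup_left) hx
  obtain ⟨F, i1, i2, hu, hc, hF⟩ := exists_unram χ
    (fun P hP g hg => h2 g (Subgroup.mem_sup_left (inertia_mem_IC hP hg)))
  have hs : Function.Surjective (AlgEquiv.restrictNormalHom F : (M ≃ₐ[K] M) →* (F ≃ₐ[K] F)) :=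
    AlgEquiv.restrictNormalHom_surjective M
  have hpow : ∀ r : F ≃ₐ[K] F, r ^ p = 1 := by
    intro r
    obtain ⟨y, rfl⟩ := hs r
    rw [← map_pow, hF]
    exact h2 _ (Subgroup.mem_sup_right (Subgroup.subset_closure ⟨y, rfl⟩))
  have hcard : Nat.card (F ≃ₐ[K] F) = p := by
    obtain ⟨g, hg⟩ := hc.exists_generator
    have h3 := orderOf_eq_card_of_forall_mem_zpowers hg
    rw [← h3]
    rcases (Nat.dvd_prime hp.out).1 (orderOf_dvd_of_pow_eq_one (hpow g)) with h4 | h4
    · exfalso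
      rw [orderOf_eq_one_iff] at h4
      apply h1
      rw [← hF]
      obtain ⟨k, hk⟩ := hg (AlgEquiv.restrictNormalHom F (cj hσ x * (x ^ t)⁻¹))
      simp only [h4, one_zpow] at hk
      exact hk.symm
    · exact h4
  obtain ⟨s, hs1, hs2⟩ := h F hu hcard
  have h5 := res_cj hσ F hc hs1 hs2 x
  apply h1
  rw [← hF, map_mul, map_inv, map_pow, h5, mul_inv_cancel]

variable {S : Set (Ideal (𝓞 K))}

/-- the Frobenius relation in the abelianization -/
theorem inertia_pow_eq_one (hPG : IsPGroup p (M ≃ₐ[K] M)) {V t : ℕ} (hS : RayScalar K S p V t δ)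
    (hun : ∀ P : Ideal (𝓞 M), P.IsMaximal → P.comap (algebraMap (𝓞 K) (𝓞 M)) ∉ S →
      ∀ g ∈ P.inertia (M ≃ₐ[K] M), g = 1)
    (htm : ∀ P : Ideal (𝓞 M), P.IsMaximal → (Nat.card (P.inertia (M ≃ₐ[K] M)) : 𝓞 M) ∉ P)
    {P : Ideal (𝓞 M)} (hP : P.IsMaximal) {τ : M ≃ₐ[K] M} (hτ : τ ∈ P.inertia (M ≃ₐ[K] M)) :
    Abelianization.of τ ^ p ^ V = 1 := by
  by_cases hQ : P.comap (algebraMap (𝓞 K) (𝓞 M)) ∈ S
  · by_cases hN : p ∣ Nat.card (𝓞 K ⧸ P.comap (algebraMap (𝓞 K) (𝓞 M))) - 1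
    · exact inertia_pow hPG P (htm P hP) (hS _ hQ inferInstance hN).1 hτ
    · rw [inertia_trivial hPG P (htm P hP) hN hτ, map_one, one_pow]
  · rw [hun P hP hQ τ hτ, map_one, one_pow]

/-- the action of the automorphism on inertia -/
theorem inertia_scalar (hPG : IsPGroup p (M ≃ₐ[K] M)) {V t : ℕ} (hS : RayScalar K S p V t δ)
    (hun : ∀ P : Ideal (𝓞 M), P.IsMaximal → P.comap (algebraMap (𝓞 K) (𝓞 M)) ∉ S →
      ∀ g ∈ P.inertia (M ≃ₐ[K] M), g = 1)
    (htm : ∀ P : Ideal (𝓞 M), P.IsMaximal → (Nat.card (P.inertia (M ≃ₐ[K] M)) : 𝓞 M) ∉ P)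
    {P : Ideal (𝓞 M)} (hP : P.IsMaximal) {τ : M ≃ₐ[K] M} (hτ : τ ∈ P.inertia (M ≃ₐ[K] M)) :
    ∃ k : ℤ, Abelianization.of (cj hσ τ) = Abelianization.of τ ^ ((t : ℤ) + p * k) := by
  by_cases hQ : P.comap (algebraMap (𝓞 K) (𝓞 M)) ∈ S
  · by_cases hN : p ∣ Nat.card (𝓞 K ⧸ P.comap (algebraMap (𝓞 K) (𝓞 M))) - 1
    · obtain ⟨c, hc, hc'⟩ := (hS _ hQ inferInstance hN).2
      obtain ⟨g, c', h1, h2, h3⟩ := exists_decomp hσ P hN hc'
      have h4 := cj_inertia hσ P (htm P hP) h2 h3 hτ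
      have h5 := congrArg (Abelianization.of : (M ≃ₐ[K] M) →* _) h4
      rw [map_mul, map_mul, map_inv, map_pow, mul_comm (Abelianization.of g), mul_assoc,
        mul_inv_cancel, mul_one] at h5
      have h6 : (((c' : ℤ) - t : ℤ) : ZMod p) = 0 := by
        push_cast
        rw [h1, hc, sub_self]
      rw [ZMod.intCast_zmod_eq_zero_iff_dvd] at h6
      obtain ⟨k, hk⟩ := h6
      refine ⟨k, ?_⟩
      rw [h5, ← zpow_natCast]
      congr 1
      linarith
    · refine ⟨0, ?_⟩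
      rw [inertia_trivial hPG P (htm P hP) hN hτ, map_one, map_one, one_zpow]
  · refine ⟨0, ?_⟩
    rw [hun P hP hQ τ hτ, map_one, map_one, one_zpow]

/-- **(G3)** the exponent of the abelianization -/
theorem pow_mem_lcs_one (hPG : IsPGroup p (M ≃ₐ[K] M)) {V W t : ℕ} (hW : ClassBound K p W)
    (hS : RayScalar K S p V t δ)
    (hun : ∀ P : Ideal (𝓞 M), P.IsMaximal → P.comap (algebraMap (𝓞 K) (𝓞 M)) ∉ S →
      ∀ g ∈ P.inertia (M ≃ₐ[K] M), g = 1)
    (htm : ∀ P : Ideal (𝓞 M), P.IsMaximal → (Nat.card (P.inertia (M ≃ₐ[K] M)) : 𝓞 M) ∉ P)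
    (x : M ≃ₐ[K] M) : x ^ p ^ (V + W) ∈ lcs (M ≃ₐ[K] M) 1 := by
  rw [mem_lcs_one]
  have h1 : IC K M ≤ ((powMonoidHom (p ^ V)).comp
      (Abelianization.of : (M ≃ₐ[K] M) →* Abelianization (M ≃ₐ[K] M))).ker := by
    refine IC_le ?_ ?_
    · intro P hP g hg
      rw [MonoidHom.mem_ker]
      exact inertia_pow_eq_one hPG hS hun htm hP hg
    · intro g hg
      rw [← Abelianization.ker_of, MonoidHom.mem_ker] at hg
      rw [MonoidHom.mem_ker, MonoidHom.comp_apply, hg, map_one]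
  have h2 := h1 (pow_mem_IC hPG hW x)
  rw [MonoidHom.mem_ker, MonoidHom.comp_apply, powMonoidHom_apply, ← map_pow, ← pow_mul,
    ← pow_add, add_comm] at h2
  exact h2

/-- **(G2)** the automorphism acts on the abelianization as a scalar up to nilpotents -/
theorem sq_mapsInto (hPG : IsPGroup p (M ≃ₐ[K] M)) {V t : ℕ} (hU : ClassScalar K p t δ)
    (hS : RayScalar K S p V t δ)
    (hun : ∀ P : Ideal (𝓞 M), P.IsMaximal → P.comap (algebraMap (𝓞 K) (𝓞 M)) ∉ S →
      ∀ g ∈ P.inertia (M ≃ₐ[K] M), g = 1)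
    (htm : ∀ P : Ideal (𝓞 M), P.IsMaximal → (Nat.card (P.inertia (M ≃ₐ[K] M)) : 𝓞 M) ∉ P) :
    MapsInto ((abEnd (cj hσ) - (t : AddMonoid.End (Additive (Abelianization (M ≃ₐ[K] M))))) ^ 2)
      p := by
  set ε := abEnd (cj hσ) - (t : AddMonoid.End (Additive (Abelianization (M ≃ₐ[K] M)))) with hε
  have h0 : ∀ x : M ≃ₐ[K] M, ε (Additive.ofMul (Abelianization.of x)) =
      Additive.ofMul (Abelianization.of (cj hσ x * (x ^ t)⁻¹)) := by
    intro x
    rw [hε, sub_app, abEnd_of, AddMonoid.End.natCast_apply, ← ofMul_pow, ← ofMul_div, ← map_pow,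
      div_eq_mul_inv, ← map_inv, ← map_mul]
  let N : Subgroup (M ≃ₐ[K] M) :=
    { carrier := {z | ∃ y, ε (Additive.ofMul (Abelianization.of z)) = p • y}
      one_mem' := ⟨0, by rw [map_one, ofMul_one, map_zero, smul_zero]⟩
      mul_mem' := by
        rintro a b ⟨y, hy⟩ ⟨z, hz⟩
        exact ⟨y + z, by rw [map_mul, ofMul_mul, map_add, hy, hz, smul_add]⟩
      inv_mem' := by
        rintro a ⟨y, hy⟩
        exact ⟨-y, by rw [map_inv, ofMul_inv, map_neg, hy, smul_neg]⟩ }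
  have h1 : ICp K M p ≤ N := by
    refine sup_le (IC_le ?_ ?_) ((Subgroup.closure_le _).2 ?_)
    · intro P hP g hg
      obtain ⟨k, hk⟩ := inertia_scalar hσ hPG hS hun htm hP hg
      refine ⟨k • Additive.ofMul (Abelianization.of g), ?_⟩
      rw [h0, map_mul, hk, map_inv, map_pow, zpow_add, zpow_natCast, mul_comm, ← mul_assoc,
        inv_mul_cancel, one_mul, zpow_mul, ofMul_zpow, zpow_natCast, ofMul_pow, smul_comm]
    · intro g hg
      rw [← Abelianization.ker_of, MonoidHom.mem_ker] at hg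
      exact ⟨0, by rw [hg, ofMul_one, map_zero, smul_zero]⟩
    · rintro _ ⟨x, rfl⟩
      exact ⟨ε (Additive.ofMul (Abelianization.of x)), by rw [map_pow, ofMul_pow, map_nsmul]⟩
  intro b
  obtain ⟨x, hx⟩ := QuotientGroup.mk_surjective (Additive.toMul b)
  have hb : b = Additive.ofMul (Abelianization.of x) := by
    have : Additive.toMul b = Abelianization.of x := hx.symm
    rw [← this]; rfl
  obtain ⟨y, hy⟩ := h1 (cj_mem_ICp hσ hU x)
  refine ⟨y, ?_⟩
  rw [pow_two, mul_app, hb, h0, hy]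

end gen

end Pool.Agent.Helper45.FM
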