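import Mathlib

/-!
# Automorphisms of groups acting by scalars on the abelianization

Let `α` be an endomorphism of a group `P` with `α x ≡ x ^ u` modulo the commutator subgroup. Then
`α` acts on the quotients of the lower central series as a power of `u`. In a `p`-group every element
can be modified by an element of the commutator subgroup such that `α y ≡ y ^ u` modulo the
`f + 1`-st term of the lower central series, where `f` is the order of `u` modulo `p`.
-/

set_option autoImplicit false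
set_option linter.unusedSectionVars false

open Subgroup

open scoped commutatorElement

namespace Pool.Agent.Helper45.FM

variable {P : Type*} [Group P]

/-- the lower central series, with index shifted: `lcs 0 = ⊤` -/
abbrev lcs (P : Type*) [Group P] (j : ℕ) : Subgroup P := (⊤ : Subgroup P).lowerCentralSeries j

lemma lcs_succ (j : ℕ) : lcs P (j + 1) = ⁅lcs P j, (⊤ : Subgroup P)⁆ := rfl

lemma lcs_anti {i j : ℕ} (h : i ≤ j) : lcs P j ≤ lcs P i :=
  Subgroup.lowerCentralSeries_antitone _ h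

lemma commutator_lcs_le (j : ℕ) : ⁅lcs P j, lcs P 1⁆ ≤ lcs P (j + 2) := by
  let N := lcs P (j + 2)
  let q : P →* P ⧸ N := QuotientGroup.mk' N
  have hq : ∀ H : Subgroup P, H.map q = ⊥ ↔ H ≤ N := by
    intro H
    rw [Subgroup.map_eq_bot_iff, QuotientGroup.ker_mk']
  have h1 : ⁅⁅(⊤ : Subgroup P).map q, (⊤ : Subgroup P).map q⁆, (lcs P j).map q⁆ = ⊥ := by
    apply Subgroup.commutator_commutator_eq_bot_of_rotate
    · rw [← Subgroup.map_commutator, ← Subgroup.map_commutator, hq, Subgroup.commutator_comm ⊤]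
      exact le_rfl
    · rw [← Subgroup.map_commutator, ← Subgroup.map_commutator, hq]
      exact le_rfl
  rw [← Subgroup.map_commutator, ← Subgroup.map_commutator, hq, Subgroup.commutator_comm] at h1
  exact h1

/-- commuting modulo a normal subgroup -/
lemma commute_mk {N : Subgroup P} [N.Normal] {A B : Subgroup P} (h : ⁅A, B⁆ ≤ N) {a b : P}
    (ha : a ∈ A) (hb : b ∈ B) : Commute (a : P ⧸ N) (b : P ⧸ N) := by
  have h1 : ⁅a, b⁆ ∈ N := h (Subgroup.commutator_mem_commutator ha hb)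
  rw [← QuotientGroup.eq_one_iff] at h1
  have h2 : ⁅(a : P ⧸ N), (b : P ⧸ N)⁆ = 1 := by
    rw [← h1]
    rfl
  exact commutatorElement_eq_one_iff_commute.1 h2

lemma commutator_pow {Q : Type*} [Group Q] {a b : Q} (ha : Commute ⁅a, b⁆ a)
    (hb : Commute ⁅a, b⁆ b) (m n : ℕ) : ⁅a ^ m, b ^ n⁆ = ⁅a, b⁆ ^ (m * n) := by
  set z := ⁅a, b⁆ with hz
  have h1 : a * b * a⁻¹ = z * b := by
    rw [hz, commutatorElement_def]; group
  have h2 : ∀ m : ℕ, a ^ m * b * (a ^ m)⁻¹ = z ^ m * b := by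
    intro m
    induction m with
    | zero => simp
    | succ m ih =>
      have h3 : a ^ (m + 1) * b * (a ^ (m + 1))⁻¹ = a * (a ^ m * b * (a ^ m)⁻¹) * a⁻¹ := by
        rw [pow_succ']; group
      rw [h3, ih]
      have h4 : a * z ^ m = z ^ m * a := ((ha.pow_left m).eq).symm
      calc a * (z ^ m * b) * a⁻¹ = (a * z ^ m) * b * a⁻¹ := by group
        _ = z ^ m * (a * b * a⁻¹) := by rw [h4]; group
        _ = z ^ (m + 1) * b := by rw [h1, pow_succ]; group
  have h3 : a ^ m * b ^ n * (a ^ m)⁻¹ = z ^ (m * n) * b ^ n := by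
    have h4 : a ^ m * b ^ n * (a ^ m)⁻¹ = (a ^ m * b * (a ^ m)⁻¹) ^ n := by
      rw [conj_pow]
    rw [h4, h2, (hb.pow_left m).mul_pow, ← pow_mul]
  rw [commutatorElement_def, h3]
  group

/-- the action on the quotients of the lower central series -/
theorem scalar_lcs (α : P →* P) (u : ℕ) (h : ∀ x, α x * (x ^ u)⁻¹ ∈ lcs P 1) (j : ℕ) :
    ∀ x ∈ lcs P j, α x * (x ^ (u ^ (j + 1)))⁻¹ ∈ lcs P (j + 1) := by
  induction j with
  | zero =>
    intro x _
    simpa using h x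
  | succ j ih =>
    let N := lcs P (j + 2)
    have hcen : ∀ {a b : P}, a ∈ lcs P (j + 1) → Commute (a : P ⧸ N) (b : P ⧸ N) :=
      fun ha => commute_mk (A := lcs P (j + 1)) (B := ⊤) le_rfl ha (Subgroup.mem_top _)
    have hiff : ∀ a b : P, a * b⁻¹ ∈ N ↔ (a : P ⧸ N) = (b : P ⧸ N) := by
      intro a b
      rw [← QuotientGroup.eq_one_iff, QuotientGroup.mk_mul, QuotientGroup.mk_inv, mul_inv_eq_one]
    -- the good elements
    let T : Subgroup P :=
      { carrier := {x | x ∈ lcs P (j + 1) ∧ ((α x : P) : P ⧸ N) = (x : P ⧸ N) ^ (u ^ (j + 2))}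
        one_mem' := ⟨one_mem _, by simp⟩
        mul_mem' := by
          rintro a b ⟨ha, ha'⟩ ⟨hb, hb'⟩
          refine ⟨mul_mem ha hb, ?_⟩
          rw [map_mul, QuotientGroup.mk_mul, ha', hb', QuotientGroup.mk_mul,
            (hcen ha).mul_pow]
        inv_mem' := by
          rintro a ⟨ha, ha'⟩
          refine ⟨inv_mem ha, ?_⟩
          rw [map_inv, QuotientGroup.mk_inv, ha', QuotientGroup.mk_inv, inv_pow] }
    have hT : lcs P (j + 1) ≤ T := by
      rw [lcs_succ, Subgroup.commutator_le]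
      intro a ha b _
      have hab : ⁅a, b⁆ ∈ lcs P (j + 1) := Subgroup.commutator_mem_commutator ha (Subgroup.mem_top _)
      refine ⟨hab, ?_⟩
      obtain ⟨c, hc, hac⟩ : ∃ c ∈ lcs P (j + 1), α a = c * a ^ (u ^ (j + 1)) :=
        ⟨_, ih a ha, by group⟩
      obtain ⟨c', hc', hbc⟩ : ∃ c' ∈ lcs P 1, α b = c' * b ^ u := ⟨_, h b, by group⟩
      have e1 : ((α ⁅a, b⁆ : P) : P ⧸ N) = ⁅((α a : P) : P ⧸ N), ((α b : P) : P ⧸ N)⁆ := by
        rw [map_commutatorElement]; rfl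
      have e2 : ((α a : P) : P ⧸ N) = (c : P ⧸ N) * (a : P ⧸ N) ^ (u ^ (j + 1)) := by
        rw [hac]; rfl
      have e3 : ((α b : P) : P ⧸ N) = (c' : P ⧸ N) * (b : P ⧸ N) ^ u := by
        rw [hbc]; rfl
      have k1 : Commute (a : P ⧸ N) (c' : P ⧸ N) := commute_mk (commutator_lcs_le j) ha hc'
      have k2 : ∀ x : P, Commute (c : P ⧸ N) (x : P ⧸ N) := fun x => hcen hc
      have e4 : (((⁅a, b⁆ : P)) : P ⧸ N) = ⁅(a : P ⧸ N), (b : P ⧸ N)⁆ := rfl
      have k3 : Commute ⁅(a : P ⧸ N), (b : P ⧸ N)⁆ (a : P ⧸ N) := by rw [← e4]; exact hcen hab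
      have k4 : Commute ⁅(a : P ⧸ N), (b : P ⧸ N)⁆ (b : P ⧸ N) := by rw [← e4]; exact hcen hab
      rw [e1, e4, e2, e3]
      set A := (a : P ⧸ N) ^ (u ^ (j + 1)) with hA
      set B := (b : P ⧸ N) ^ u with hB
      have k5 : Commute (c : P ⧸ N) ((c' : P ⧸ N) * B) := by
        rw [hB]
        exact (k2 c').mul_right ((k2 b).pow_right u)
      have k6 : Commute A (c' : P ⧸ N) := k1.pow_left _
      have k8 : Commute ⁅A, B⁆ (c' : P ⧸ N) := by
        rw [hA, hB, commutator_pow k3 k4, ← e4]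
        exact (hcen hab).pow_left _
      have e5 : ⁅(c : P ⧸ N) * A, (c' : P ⧸ N) * B⁆ = ⁅A, B⁆ := by
        have e6 : (c : P ⧸ N) * A * ((c' : P ⧸ N) * B) * ((c : P ⧸ N) * A)⁻¹ =
            (c : P ⧸ N) * (A * ((c' : P ⧸ N) * B) * A⁻¹) * (c : P ⧸ N)⁻¹ := by group
        have e7 : A * ((c' : P ⧸ N) * B) * A⁻¹ = (c' : P ⧸ N) * (A * B * A⁻¹) := by
          rw [← mul_assoc A, k6.eq]; group
        have k7 : Commute (c : P ⧸ N) ((c' : P ⧸ N) * (A * B * A⁻¹)) := by
          rw [hA, hB]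
          exact (k2 c').mul_right ((((k2 a).pow_right _).mul_right ((k2 b).pow_right u)).mul_right
            ((k2 a).pow_right _).inv_right)
        have e8 : ⁅(c : P ⧸ N) * A, (c' : P ⧸ N) * B⁆ =
            (c' : P ⧸ N) * ⁅A, B⁆ * (c' : P ⧸ N)⁻¹ := by
          rw [commutatorElement_def, commutatorElement_def, e6, e7, k7.eq]
          group
        rw [e8, ← k8.eq]
        group
      rw [e5, hA, hB, commutator_pow k3 k4]
      congr 1
    intro x hx
    have h2 := (hT hx).2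
    rw [hiff, h2]
    rfl

lemma mk_eq_iff {N : Subgroup P} [N.Normal] (a b : P) :
    a * b⁻¹ ∈ N ↔ (a : P ⧸ N) = (b : P ⧸ N) := by
  rw [← QuotientGroup.eq_one_iff, QuotientGroup.mk_mul, QuotientGroup.mk_inv, mul_inv_eq_one]

/-- if `x ^ m` is trivial for an integer `m` prime to `p`, and `x` has `p`-power order, then `x` is
trivial -/
lemma eq_one_of_zpow {Q : Type*} [Group Q] {p a : ℕ} (hp : p.Prime) {x : Q} (hx : x ^ p ^ a = 1)
    {m : ℤ} (hm : ¬ (p : ℤ) ∣ m) (h : x ^ m = 1) : x = 1 := by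
  have hcop : IsCoprime ((p : ℤ) ^ a) m := by
    apply IsCoprime.pow_left
    rw [Int.isCoprime_iff_gcd_eq_one]
    exact (Nat.Prime.coprime_iff_not_dvd hp).2 (fun h => hm (Int.natCast_dvd.2 h))
  obtain ⟨r, s, hrs⟩ := hcop
  have h1 : x ^ (r * (p : ℤ) ^ a + s * m) = 1 := by
    rw [zpow_add, mul_comm r, mul_comm s, zpow_mul, zpow_mul, h]
    have : x ^ ((p : ℤ) ^ a) = 1 := by
      rw [← Nat.cast_pow, zpow_natCast, hx]
    rw [this]
    simp
  rwa [hrs, zpow_one] at h1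

/-- solving for an exponent -/
lemma exists_zpow {Q : Type*} [Group Q] {p a : ℕ} (hp : p.Prime) {x : Q} (hx : x ^ p ^ a = 1)
    {m : ℤ} (hm : ¬ (p : ℤ) ∣ m) : ∃ s : ℤ, x ^ (s * m) = x := by
  have hcop : IsCoprime ((p : ℤ) ^ a) m := by
    apply IsCoprime.pow_left
    rw [Int.isCoprime_iff_gcd_eq_one]
    exact (Nat.Prime.coprime_iff_not_dvd hp).2 (fun h => hm (Int.natCast_dvd.2 h))
  obtain ⟨r, s, hrs⟩ := hcop
  refine ⟨s, ?_⟩
  have h1 : x ^ (r * (p : ℤ) ^ a + s * m) = x := by rw [hrs, zpow_one]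
  rw [zpow_add, mul_comm r, zpow_mul] at h1
  have : x ^ ((p : ℤ) ^ a) = 1 := by
    rw [← Nat.cast_pow, zpow_natCast, hx]
  rw [this] at h1
  simpa using h1

lemma not_dvd_of_order {p u f : ℕ} [Fact p.Prime] (hf : orderOf (u : ZMod p) = f) {k : ℕ}
    (hk : 0 < k) (hkf : k < f) : ¬ (p : ℤ) ∣ ((u : ℤ) ^ (k + 1) - u) := by
  intro h
  have h1 : ((u : ZMod p)) ^ (k + 1) = u := by
    have h2 : (((u : ℤ) ^ (k + 1) - u : ℤ) : ZMod p) = 0 := by
      rw [ZMod.intCast_zmod_eq_zero_iff_dvd]; exact h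
    push_cast at h2
    exact sub_eq_zero.1 h2
  have hu : (u : ZMod p) ≠ 0 := by
    intro h0
    rw [h0, orderOf_eq_zero] at hf
    · omega
    · rw [isOfFinOrder_iff_pow_eq_one]
      rintro ⟨n, hn, hn'⟩
      rw [zero_pow hn.ne'] at hn'
      exact zero_ne_one hn'
  have h2 : (u : ZMod p) ^ k = 1 := by
    have h3 : (u : ZMod p) ^ k * u = 1 * u := by rw [← pow_succ, h1, one_mul]
    exact mul_right_cancel₀ hu h3
  have h3 := orderOf_dvd_of_pow_eq_one h2
  rw [hf] at h3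
  exact absurd (Nat.le_of_dvd hk h3) (not_le.2 hkf)

/-- lifting eigenvectors of the abelianization -/
theorem exists_lift {p : ℕ} [hp : Fact p.Prime] (hP : IsPGroup p P) (α : P →* P) (u f : ℕ)
    (hf : orderOf (u : ZMod p) = f) (h : ∀ x, α x * (x ^ u)⁻¹ ∈ lcs P 1) (x : P) :
    ∀ k, k + 1 ≤ f → ∃ y, y * x⁻¹ ∈ lcs P 1 ∧ α y * (y ^ u)⁻¹ ∈ lcs P (k + 1) := by
  intro k
  induction k with
  | zero =>
    intro _
    exact ⟨x, by simp, by simpa using h x⟩
  | succ k ih =>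
    intro hk
    obtain ⟨y, hy, hyw⟩ := ih (by omega)
    set w := α y * (y ^ u)⁻¹ with hw
    obtain ⟨a, ha⟩ := hP w
    obtain ⟨s, hs⟩ := exists_zpow hp.out ha (m := (u : ℤ) - (u : ℤ) ^ (k + 2)) (by
      have := not_dvd_of_order (p := p) hf (k := k + 1) (by omega) (by omega)
      intro h1
      apply this
      rw [← neg_sub, dvd_neg] at h1
      exact h1)
    have hz : w ^ s ∈ lcs P (k + 1) := zpow_mem hyw s
    refine ⟨y * w ^ s, ?_, ?_⟩
    · have h1 : y * w ^ s * x⁻¹ = (y * w ^ s * y⁻¹) * (y * x⁻¹) := by group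
      rw [h1]
      refine mul_mem ?_ hy
      exact Subgroup.Normal.conj_mem inferInstance _ (lcs_anti (by omega) hz) y
    · let N := lcs P (k + 2)
      change α (y * w ^ s) * ((y * w ^ s) ^ u)⁻¹ ∈ N
      have hcen : ∀ {a b : P}, a ∈ lcs P (k + 1) → Commute (a : P ⧸ N) (b : P ⧸ N) :=
        fun ha => commute_mk (A := lcs P (k + 1)) (B := ⊤) le_rfl ha (Subgroup.mem_top _)
      rw [mk_eq_iff]
      have h1 := scalar_lcs α u h (k + 1) _ hz
      have h1' := (mk_eq_iff (N := N) _ _).1 h1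
      have h2 : ((α y : P) : P ⧸ N) = (w : P ⧸ N) * (y : P ⧸ N) ^ u := by
        have : α y = w * y ^ u := by rw [hw]; group
        rw [this]; rfl
      have e1 : ((α (y * w ^ s) : P) : P ⧸ N) = ((α y : P) : P ⧸ N) * ((α (w ^ s) : P) : P ⧸ N) := by
        rw [map_mul]; rfl
      have e2 : (((y * w ^ s) ^ u : P) : P ⧸ N) = (y : P ⧸ N) ^ u * ((w ^ s : P) : P ⧸ N) ^ u := by
        have h3 : Commute (y : P ⧸ N) ((w ^ s : P) : P ⧸ N) := (hcen hz).symm
        rw [← h3.mul_pow]; rfl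
      rw [e1, e2, h1', h2]
      set W := (w : P ⧸ N) with hW
      set Y := (y : P ⧸ N) ^ u with hY
      have k1 : Commute W Y := by rw [hY]; exact (hcen hyw).pow_right u
      have e3 : ((w ^ s : P) : P ⧸ N) = W ^ s := rfl
      have e4 : (((w ^ s) ^ (u ^ (k + 1 + 1)) : P) : P ⧸ N) = W ^ (s * (u : ℤ) ^ (k + 2)) := by
        rw [QuotientGroup.mk_pow, e3, ← zpow_natCast, ← zpow_mul]
        push_cast
        rfl
      have e5 : W ^ (s * ((u : ℤ) - (u : ℤ) ^ (k + 2))) = W := by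
        have := congrArg (fun g : P => (g : P ⧸ N)) hs
        simpa using this
      rw [e4, e3, ← zpow_natCast (W ^ s), ← zpow_mul, k1.eq, mul_assoc]
      congr 1
      have e6 : s * (u : ℤ) = s * ((u : ℤ) - (u : ℤ) ^ (k + 2)) + s * (u : ℤ) ^ (k + 2) := by ring
      rw [e6, zpow_add, e5]

/-- powers of eigenvectors lie deep in the lower central series -/
theorem pow_mem_lcs {p : ℕ} [hp : Fact p.Prime] (hP : IsPGroup p P) (α : P →* P) (u f q : ℕ)
    (hf : orderOf (u : ZMod p) = f) (h : ∀ x, α x * (x ^ u)⁻¹ ∈ lcs P 1)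
    (hq : ∀ x : P, x ^ q ∈ lcs P 1) {y : P} (hy : α y * (y ^ u)⁻¹ ∈ lcs P f) :
    ∀ k, k + 1 ≤ f → y ^ q ∈ lcs P (k + 1) := by
  intro k
  induction k with
  | zero => intro _; exact hq y
  | succ k ih =>
    intro hk
    have h1 := ih (by omega)
    let N := lcs P (k + 2)
    change y ^ q ∈ N
    have h2 := (mk_eq_iff (N := N) _ _).1 (scalar_lcs α u h (k + 1) _ h1)
    have h3 : α y * (y ^ u)⁻¹ ∈ N := lcs_anti (by omega) hy
    have h4 := (mk_eq_iff (N := N) _ _).1 h3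
    rw [← QuotientGroup.eq_one_iff]
    obtain ⟨a, ha⟩ := hP (y ^ q)
    apply eq_one_of_zpow hp.out (a := a) (m := (u : ℤ) ^ (k + 2) - u)
    · rw [← QuotientGroup.mk_pow, ha]; rfl
    · exact not_dvd_of_order hf (by omega) (by omega)
    · have e1 : ((α (y ^ q) : P) : P ⧸ N) = (((y ^ q : P)) : P ⧸ N) ^ u := by
        rw [map_pow, QuotientGroup.mk_pow, h4, QuotientGroup.mk_pow, QuotientGroup.mk_pow,
          ← pow_mul, ← pow_mul, mul_comm]
      rw [e1] at h2
      rw [zpow_sub, mul_inv_eq_one]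
      have e2 : ((u : ℤ) ^ (k + 2)) = ((u ^ (k + 2) : ℕ) : ℤ) := by push_cast; rfl
      rw [e2, zpow_natCast, zpow_natCast, h2]
      rfl

/-- the group theoretic result -/
theorem exists_deep {p : ℕ} [hp : Fact p.Prime] (hP : IsPGroup p P) (α : P →* P) (u q : ℕ)
    (hu : 0 < orderOf (u : ZMod p)) (h : ∀ x, α x * (x ^ u)⁻¹ ∈ lcs P 1)
    (hq : ∀ x : P, x ^ q ∈ lcs P 1) (x : P) :
    ∃ y, y * x⁻¹ ∈ lcs P 1 ∧ y ^ q ∈ lcs P (orderOf (u : ZMod p)) := by
  set f := orderOf (u : ZMod p) with hf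
  obtain ⟨m, hm⟩ : ∃ m, f = m + 1 := ⟨f - 1, by omega⟩
  obtain ⟨y, hy, hy2⟩ := exists_lift hP α u f hf.symm h x m (by omega)
  refine ⟨y, hy, ?_⟩
  rw [← hm] at hy2
  have := pow_mem_lcs hP α u f q hf.symm h hq hy2 m (by omega)
  rw [hm]
  exact this

end Pool.Agent.Helper45.FM
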